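import Pool.Agent.Helper58.SF.StG

/-!
# Project SF, module FAB: simple properties of the discs
-/

set_option autoImplicit false

namespace Pool.Agent.Helper7.SF

open Set Topology Pool.Agent.Helper13.TR Pool.Agent.Helper58.SF
open Pool.Agent.Helper13.TW (IsArc Spl IsSCC dch Chn Splt GT CSy MP Val LR MCell StARB StARX StSCL StUAR StINF StLIN StAC1 StSDM StLRC StBF StMD1 StMD2 StMD3)

/-- The cycle `zJ` lies in `Jp` and is a boundary. -/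
private lemma bounds (hHTF : StHTF) (hMON : StMON) (hPSH : StPSH) (hFLW : StFLW)
    {P : Type} [MetricSpace P] {r : P → ℝ} {R : ℝ → P → P}
    {dg : P → Ch P 3 → ℤ} {x₀ : P} {a a' b : ℝ} {V0 V' C2 Jp : Set P} {zJ : Ch P 1} {chi : P → ℝ}
    {O1 : Set P} (D : Dat P r R dg x₀ a a' b V0 V' C2 Jp zJ chi O1) :
    zJ ∈ cin Jp 1 ∧ ∃ e : Ch P 2, bd 1 e = zJ := by
  have hmono := (hMON P).1
  obtain ⟨p, q, D₁, D₂, d₁, d₂, hspl, hd₁, hd₂, hb₁, hb₂, hz⟩ := D.spl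
  have hD₁ : D₁ ⊆ Jp := hspl.2.2.2 ▸ subset_union_left
  have hD₂ : D₂ ⊆ Jp := hspl.2.2.2 ▸ subset_union_right
  have hzJ : zJ ∈ cin Jp 1 := by
    rw [hz]
    exact sub_mem (hmono _ _ 1 hD₁ hd₁) (hmono _ _ 1 hD₂ hd₂)
  have hz0 : bd 0 zJ = 0 := by rw [hz, map_sub, hb₁, hb₂, sub_self]
  have hRa : Continuous (R a) := (hFLW P r R D.gb.box.toFlow).1 a D.ha
  obtain ⟨⟨h, -, hh⟩, -⟩ := hHTF P r R dg D.gb a hRa Jp zJ D.ha hzJ hz0
  obtain ⟨s1, -, s3, -, -, -⟩ := hPSH P P P ⟨R a, hRa⟩ ⟨R a, hRa⟩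
  have hpz : push ⟨R a, hRa⟩ 1 zJ ∈ cin V' 1 := by
    apply s3 V' 1 zJ
    exact hmono _ _ 1 (fun y hy => (D.Ja y hy).1) hzJ
  have hpz0 : bd 0 (push ⟨R a, hRa⟩ 1 zJ) = 0 := by rw [s1, hz0, map_zero]
  obtain ⟨e', he'⟩ := D.bV0 _ (hmono _ _ 1 D.subV hpz) hpz0
  refine ⟨hzJ, e' - h, ?_⟩
  rw [map_sub, he', hh, sub_sub_cancel]

/-- levels of the surfaces -/
private lemma lev {P : Type} [MetricSpace P] {r : P → ℝ} {R : ℝ → P → P}
    {dg : P → Ch P 3 → ℤ} {x₀ : P} {a a' b : ℝ} {V0 V' C2 Jp : Set P} {zJ : Ch P 1} {chi : P → ℝ}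
    {O1 : Set P} (D : Dat P r R dg x₀ a a' b V0 V' C2 Jp zJ chi O1) {u : ℝ} (hu : u ∈ Icc (0 : ℝ) 1)
    {y : P} (hy : y ∈ Sg r R chi a a' b u) : a' ≤ r y ∧ r y ≤ b := by
  have h1 : r y = b - u * chi (R a y) * (b - a') := hy
  have hab : 0 < b - a' := by linarith [D.hax, D.hxb]
  have hc := D.chi01 (R a y)
  have h0 : 0 ≤ u * chi (R a y) := mul_nonneg hu.1 hc.1
  have h1' : u * chi (R a y) ≤ 1 := mul_le_one₀ hu.2 hc.1 hc.2
  constructor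
  · rw [h1]; nlinarith
  · rw [h1]; nlinarith

/-- Claim (A). -/
private lemma claimA (hOMB : StOMB) (hHTF : StHTF) (hBEX : StBEX) (hMON : StMON) (hPSH : StPSH)
    (hFLW : StFLW) {P : Type} [MetricSpace P] {r : P → ℝ} {R : ℝ → P → P}
    {dg : P → Ch P 3 → ℤ} {x₀ : P} {a a' b : ℝ} {V0 V' C2 Jp : Set P} {zJ : Ch P 1} {chi : P → ℝ}
    {O1 : Set P} (D : Dat P r R dg x₀ a a' b V0 V' C2 Jp zJ chi O1) {x : P}
    (hax : a ≤ r x) (hxb : r x ≤ b) (hC : R a x ∈ C2) : Wd (Up r R) (Dn r R) dg zJ x ≠ 0 := by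
  obtain ⟨hzJ, e, he⟩ := bounds hHTF hMON hPSH hFLW D
  have hmono := (hMON P).1
  have F := D.gb.box.toFlow
  obtain ⟨-, -, -, f4, f5, f6, -, -⟩ := hFLW P r R F
  obtain ⟨y, hyU, hyb⟩ := (hBEX P r R dg D.gb.toSB).1 x b hxb D.hb
  have hRa : R a y = R a x := by
    rw [← F.RR a (r x) y D.ha hax, hyU.2]
  have hwin := D.win y hyb (hRa ▸ hC)
  have hJL : Jp ⊆ (Ln r R x)ᶜ := by
    intro v hv hvL
    have h1 := (f6 x v).1 hvL
    rw [D.Jb v hv, min_eq_left hxb, F.Rid _ x le_rfl] at h1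
    have h2 : R a v = R a x := by
      rw [← F.RR a (r x) v D.ha hax, ← h1]
    exact (D.Ja v hv).2 (h2 ▸ hC)
  have hjoin := f4 (r x) y (F.pos x)
  rw [hyU.2] at hjoin
  have h3 := (hOMB P r R dg D.gb).2.2.1 e {z | ∃ σ : ℝ, r x ≤ σ ∧ z = R σ y} (by
    rintro v ⟨σ, hσ, rfl⟩
    rw [he]
    have hvU : R σ y ∈ Up r R x := by
      refine ⟨?_, ?_⟩
      · rw [F.rR σ y (lt_of_lt_of_le (F.pos x) hσ)]
        exact le_min hσ hyU.1
      · rw [F.RR (r x) σ y (F.pos x) hσ, hyU.2]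
    have hL := f5 x (R σ y) hvU
    exact hmono _ _ 1 (hJL.trans (compl_subset_compl.2 hL)) hzJ) y x hjoin
  rw [he] at h3
  rw [← h3]
  exact hwin

theorem hFAB : StFAA → StTWO → StOMB → StHTF → StBEX → StPSH → StMON → StFLW → StFAB := by
  intro hFAA hTWO hOMB hHTF hBEX hPSH hMON hFLW P _ r R dg x₀ a a' b V0 V' C2 Jp zJ chi O1 D
  have F := D.gb.box.toFlow
  have hab : 0 < b - a' := by linarith [D.hax, D.hxb]
  have hra : ∀ y, a ≤ r y → r (R a y) = a := fun y hy => by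
    rw [F.rR a y D.ha, min_eq_left hy]
  -- (1)
  have h1 : ∀ u ∈ Icc (0 : ℝ) 1, ∀ y ∈ Sg r R chi a a' b u, R a y ∈ C2 →
      y ∈ Dk r R dg chi a a' b zJ Jp u := by
    intro u hu y hy hC
    obtain ⟨l1, l2⟩ := lev D hu hy
    exact ⟨hy, Or.inr (claimA hOMB hHTF hBEX hMON hPSH hFLW D (D.haa.le.trans l1) l2 hC)⟩
  -- (2)
  have h2 : ∀ u ∈ Icc (0 : ℝ) 1, ∀ y ∈ Dk r R dg chi a a' b zJ Jp u, R a y ∉ C2 →
      r y = b ∧ ∀ u' ∈ Icc (0 : ℝ) 1, y ∈ Dk r R dg chi a a' b zJ Jp u' := by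
    intro u hu y hy hC
    obtain ⟨l1, l2⟩ := lev D hu hy.1
    have hc0 : chi (R a y) = 0 := D.chi0 _ (hra y (D.haa.le.trans l1)) hC
    have hb : r y = b := by
      have h : r y = b - u * chi (R a y) * (b - a') := hy.1
      rw [h, hc0]; ring
    refine ⟨hb, fun u' _ => ⟨?_, hy.2⟩⟩
    change r y = b - u' * chi (R a y) * (b - a')
    rw [hc0, hb]; ring
  have h01 : (0 : ℝ) ∈ Icc (0 : ℝ) 1 := ⟨le_rfl, zero_le_one⟩
  -- (3)
  have h3 : ∀ u ∈ Icc (0 : ℝ) 1, Jp ⊆ Dk r R dg chi a a' b zJ Jp u ∧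
      IsCompact (Dk r R dg chi a a' b zJ Jp u) := by
    intro u hu
    obtain ⟨hl, hp, hWN, hCel, hJS, him⟩ := hFAA P r R dg x₀ a a' b V0 V' C2 Jp zJ chi O1 D u hu
      (Sg r R chi a a' b u) rfl
    refine ⟨fun y hy => ⟨hJS hy, Or.inl hy⟩, ?_⟩
    rw [← him]
    exact ((hTWO _ _ _ hWN _ hCel.1).2.2.1).image continuous_subtype_val
  refine ⟨h1, h2, h3, ?_, ?_, ?_⟩
  · -- (4)
    refine ⟨Dk r R dg chi a a' b zJ Jp 0 ∪
      ({y : P | a ≤ r y ∧ r y ≤ b ∧ R a y ∈ C2} ∩ {y : P | a' ≤ r y}), ?_, ?_, ?_⟩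
    · refine (h3 0 h01).2.union (IsCompact.inter_right ?_ (isClosed_le continuous_const F.rc))
      exact D.gb.box.cpt a b C2 D.ha (by linarith [D.haa]) D.hb D.cC2 D.lC2
    · rintro y (hy | hy)
      · exact lev D h01 hy.1
      · exact ⟨hy.2, hy.1.2.1⟩
    · intro u hu y hy
      by_cases hC : R a y ∈ C2
      · obtain ⟨l1, l2⟩ := lev D hu hy.1
        exact Or.inr ⟨⟨D.haa.le.trans l1, l2, hC⟩, l1⟩
      · exact Or.inl ((h2 u hu y hy hC).2 0 h01)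
  · -- (5)
    intro y hya hyb hO
    have hc1 : chi (R a y) = 1 := D.chi1 _ hO (hra y (D.haa.le.trans hya.le))
    have hC : R a y ∈ C2 := by
      by_contra hC
      have := D.chi0 _ (hra y (D.haa.le.trans hya.le)) hC
      rw [hc1] at this
      exact one_ne_zero this
    have hu : (b - r y) / (b - a') ∈ Icc (0 : ℝ) 1 := by
      refine ⟨div_nonneg (by linarith) hab.le, ?_⟩
      rw [div_le_one hab]
      linarith
    refine ⟨h1 _ hu y ?_ hC, ?_⟩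
    · change r y = b - (b - r y) / (b - a') * chi (R a y) * (b - a')
      rw [hc1, mul_one, div_mul_cancel₀ _ hab.ne']
      ring
    · intro hJ
      exact hyb.ne (D.Jb y hJ)
  · -- (6)
    intro u hu y hy hO
    obtain ⟨l1, l2⟩ := lev D hu hy.1
    have hc1 : chi (R a y) = 1 := D.chi1 _ hO (hra y (D.haa.le.trans l1))
    have h : r y = b - u * chi (R a y) * (b - a') := hy.1
    rw [hc1, mul_one] at h
    exact h

end Pool.Agent.Helper7.SF
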