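import Pool.Agent.Helper58.SF.StB

/-!
# Project SF, module SMW: small cycles have winding number zero far away; compact supports
-/

set_option autoImplicit false

namespace Pool.Agent.Helper7.SF

open Set Topology Pool.Agent.Helper13.TR Pool.Agent.Helper58.SF
open Pool.Agent.Helper13.TW (IsArc Spl IsSCC dch Chn Splt GT CSy MP Val LR MCell StARB StARX StSCL StUAR StINF StLIN StAC1 StSDM)

private lemma down {P : Type} [TopologicalSpace P] {r : P → ℝ} {R : ℝ → P → P} (F : Flow P r R)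
    {s m : ℝ} {y v : P} (hs : 0 < s) (hm : s ≤ m) (h : R m y = R m v) : R s y = R s v := by
  rw [← F.RR s m y hs hm, ← F.RR s m v hs hm, h]

/-- the claim of part (1) -/
private lemma nbhd {P : Type} [TopologicalSpace P] [T2Space P] [LocallyCompactSpace P] {r : P → ℝ}
    {R : ℝ → P → P} (B : Box P r R) (hF : StFLW) (x : P) (U : Set P) (hU : IsOpen U) (hx : x ∈ U) :
    ∃ N : Set P, IsOpen N ∧ x ∈ N ∧ ∀ y : P, r y = r x → y ∉ U → N ⊆ (Ln r R y)ᶜ := by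
  obtain ⟨fR, -, -, -, -, f6, -, -⟩ := hF P r R B.toFlow
  have ht0 : 0 < r x := B.pos x
  have ht1 : r x < 1 := B.lt x
  obtain ⟨s0, hs0, hs0t⟩ := exists_between ht0
  obtain ⟨t1, htt1, ht11⟩ := exists_between ht1
  have hO : IsOpen {y : P | s0 < r y ∧ r y < t1} :=
    (isOpen_lt continuous_const B.rc).inter (isOpen_lt B.rc continuous_const)
  obtain ⟨N0, hN0c, hN0x, hN0⟩ := exists_compact_subset hO (show x ∈ {y : P | s0 < r y ∧ r y < t1}
    from ⟨hs0t, htt1⟩)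
  have hCc : IsCompact (R s0 '' N0) := hN0c.image (fR s0 hs0)
  have hCl : ∀ y ∈ R s0 '' N0, r y = s0 := by
    rintro _ ⟨v, hv, rfl⟩
    rw [B.rR s0 v hs0]
    exact min_eq_left (hN0 hv).1.le
  have hK := B.cpt s0 t1 (R s0 '' N0) hs0 (hs0t.trans htt1).le ht11 hCc hCl
  have hMc : IsCompact ({y : P | s0 ≤ r y ∧ r y ≤ t1 ∧ R s0 y ∈ R s0 '' N0} ∩
      ({y : P | r y = r x} ∩ Uᶜ)) :=
    hK.inter_right ((isClosed_eq B.rc continuous_const).inter hU.isClosed_compl)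
  have hpos : ∀ p : P × P, 0 < min (r x) (r p.1) := fun p => lt_min ht0 (B.pos _)
  have hG : IsClosed {p : P × P | R (min (r x) (r p.1)) p.2 = R (min (r x) (r p.1)) p.1} := by
    apply isClosed_eq
    · exact B.Rc.comp_continuous (f := fun p : P × P => ((min (r x) (r p.1), p.2) : ℝ × P))
        (by have := B.rc; fun_prop) hpos
    · exact B.Rc.comp_continuous (f := fun p : P × P => ((min (r x) (r p.1), p.1) : ℝ × P))
        (by have := B.rc; fun_prop) hpos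
  obtain ⟨N1, V1, hN1, -, hxN1, hMV, hsub⟩ := generalized_tube_lemma (isCompact_singleton (x := x))
    hMc hG.isOpen_compl (by
      rintro ⟨v, y⟩ ⟨hv, hy⟩
      simp only [mem_singleton_iff] at hv
      subst hv
      intro hG'
      simp only [mem_setOf_eq, min_self] at hG'
      rw [B.Rid _ y (le_of_eq hy.2.1), B.Rid _ v le_rfl] at hG'
      exact hy.2.2 (hG' ▸ hx))
  refine ⟨interior N0 ∩ N1, isOpen_interior.inter hN1, ⟨hN0x, hxN1 rfl⟩, ?_⟩
  rintro y hy hyU v ⟨hv0, hv1⟩ hvL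
  have h1 := (f6 y v).1 hvL
  rw [hy] at h1
  have hvN0 := interior_subset hv0
  have h2 : R s0 y = R s0 v :=
    down B.toFlow hs0 (le_min hs0t.le (hN0 hvN0).1.le) h1
  have hyM : y ∈ ({y : P | s0 ≤ r y ∧ r y ≤ t1 ∧ R s0 y ∈ R s0 '' N0} ∩
      ({y : P | r y = r x} ∩ Uᶜ)) := by
    refine ⟨⟨?_, ?_, ?_⟩, hy, hyU⟩
    · rw [hy]; exact hs0t.le
    · rw [hy]; exact htt1.le
    · exact ⟨v, hvN0, h2.symm⟩
  exact hsub (show ((v, y) : P × P) ∈ N1 ×ˢ V1 from ⟨hv1, hMV hyM⟩) h1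

/-- the compact set of part (2) -/
private lemma supp {P : Type} [TopologicalSpace P] [T2Space P] {r : P → ℝ}
    {R : ℝ → P → P} (B : Box P r R) (hF : StFLW) (K : Set P) (hK : IsCompact K) (t : ℝ)
    (ht0 : 0 < t) (ht1 : t < 1) :
    ∃ Q : Set P, IsCompact Q ∧ (∀ y ∈ Q, r y = t) ∧ ∀ y : P, r y = t → y ∉ Q →
      K ⊆ (Ln r R y)ᶜ := by
  obtain ⟨fR, -, -, -, -, f6, -, -⟩ := hF P r R B.toFlow
  obtain ⟨m, hm0, hm⟩ : ∃ m : ℝ, 0 < m ∧ ∀ y ∈ K, m ≤ r y := by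
    rcases K.eq_empty_or_nonempty with rfl | hne
    · exact ⟨1, one_pos, by simp⟩
    · obtain ⟨y0, hy0, hmin⟩ := hK.exists_isMinOn hne B.rc.continuousOn
      exact ⟨r y0, B.pos y0, fun y hy => hmin hy⟩
  have hs0 : 0 < min m t := lt_min hm0 ht0
  have hCc : IsCompact (R (min m t) '' K) := hK.image (fR _ hs0)
  have hCl : ∀ y ∈ R (min m t) '' K, r y = min m t := by
    rintro _ ⟨v, hv, rfl⟩
    rw [B.rR _ v hs0]
    exact min_eq_left ((min_le_left _ _).trans (hm v hv))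
  have hQ := B.cpt (min m t) t _ hs0 (min_le_right _ _) ht1 hCc hCl
  refine ⟨{y : P | min m t ≤ r y ∧ r y ≤ t ∧ R (min m t) y ∈ R (min m t) '' K} ∩
    {y : P | r y = t}, hQ.inter_right (isClosed_eq B.rc continuous_const), fun y hy => hy.2, ?_⟩
  intro y hy hyQ v hv hvL
  apply hyQ
  have h1 := (f6 y v).1 hvL
  rw [hy] at h1
  have h2 : R (min m t) y = R (min m t) v :=
    down B.toFlow hs0 (le_min (min_le_right _ _) ((min_le_left _ _).trans (hm v hv))) h1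
  exact ⟨⟨by rw [hy]; exact min_le_right _ _, hy.le, ⟨v, hv, h2.symm⟩⟩, hy⟩

theorem hSMW : StOMB → StMON → StCON → StFLW → StSMW := by
  intro hOMB hMON hCON hFLW P _ r R dg hGB
  haveI := hGB.met
  haveI := hGB.lco
  obtain ⟨-, -, -, h4, -⟩ := hOMB P r R dg hGB
  have hmono := (hMON P).1
  refine ⟨?_, ?_⟩
  · intro x U hU hx
    obtain ⟨N, hN, hxN, hNU⟩ := nbhd hGB.box hFLW x U hU hx
    obtain ⟨V, hV, hxV, hVN, hVc⟩ := hGB.lh x N hN hxN
    refine ⟨V ∩ U, hV.inter hU, ⟨hxV, hx⟩, inter_subset_right, ?_⟩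
    intro z hz hz0 y hy hyU
    obtain ⟨e, he, hez⟩ := hVc z (hmono _ _ 1 inter_subset_left hz) hz0
    rw [← hez]
    exact h4 e y (hmono _ _ 2 (hNU y hy hyU) he)
  · intro t e ht0 ht1
    obtain ⟨K, hK, heK, -⟩ := hCON.2 P 2 e
    obtain ⟨Q, hQ, hQt, hQK⟩ := supp hGB.box hFLW K hK t ht0 ht1
    refine ⟨Q, hQ, hQt, fun y hy hyQ => ?_⟩
    exact h4 e y (hmono _ _ 2 (hQK y hy hyQ) heK)

end Pool.Agent.Helper7.SF
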